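import Pool.Agent.Run7.h664.NL.Iface

/-!
# Project NL, leaf CL: compactness modulo a group whose logarithms generate the Lie algebra
-/

set_option autoImplicit false

namespace Run7.h638.NL

open Finset Pool.Agent.TH91.RF Run7.h664.NL

section gen

variable {A : Type*} [Ring A] [Algebra ℝ A] [Algebra ℚ A] {N : ℕ}

/-- the lower central series of a subspace, `lcs h 0 = h` -/
def lcs (h : Submodule ℝ A) : ℕ → Submodule ℝ A
  | 0 => h
  | j + 1 => Submodule.span ℝ {x | ∃ a ∈ h, ∃ b ∈ lcs h j, x = a * b - b * a}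

theorem lcs_succ (h : Submodule ℝ A) (j : ℕ) :
    lcs h (j + 1) = Submodule.span ℝ {x | ∃ a ∈ h, ∃ b ∈ lcs h j, x = a * b - b * a} := rfl

theorem br_lcs {h : Submodule ℝ A} {j : ℕ} {a b : A} (ha : a ∈ h) (hb : b ∈ lcs h j) :
    a * b - b * a ∈ lcs h (j + 1) := Submodule.subset_span ⟨a, ha, b, hb, rfl⟩

theorem lcs_le {h : Submodule ℝ A} (hbr : ∀ a ∈ h, ∀ b ∈ h, a * b - b * a ∈ h) (j : ℕ) :
    lcs h (j + 1) ≤ lcs h j := by
  induction j with
  | zero =>
    rw [lcs_succ, Submodule.span_le]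
    rintro x ⟨a, ha, b, hb, rfl⟩
    exact hbr a ha b hb
  | succ j ih =>
    rw [lcs_succ, Submodule.span_le]
    rintro x ⟨a, ha, b, hb, rfl⟩
    exact br_lcs ha (ih hb)

theorem lcs_anti {h : Submodule ℝ A} (hbr : ∀ a ∈ h, ∀ b ∈ h, a * b - b * a ∈ h) {i j : ℕ}
    (hij : i ≤ j) : lcs h j ≤ lcs h i := by
  induction j, hij using Nat.le_induction with
  | base => exact le_rfl
  | succ j _ ih => exact (lcs_le hbr j).trans ih

theorem lcs_le_zero {h : Submodule ℝ A} (hbr : ∀ a ∈ h, ∀ b ∈ h, a * b - b * a ∈ h) (j : ℕ) :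
    lcs h j ≤ h := lcs_anti hbr (Nat.zero_le j)

theorem lcs_F (Φ : Filt A N) (hΦ : ∀ (t : ℕ) (c : ℝ) (x : A), x ∈ Φ.F t → c • x ∈ Φ.F t)
    {h : Submodule ℝ A} (hF : ∀ x ∈ h, x ∈ Φ.F 1) (j : ℕ) :
    ∀ x ∈ lcs h j, x ∈ Φ.F (j + 1) := by
  induction j with
  | zero => exact hF
  | succ j ih =>
    intro x hx
    rw [lcs_succ] at hx
    induction hx using Submodule.span_induction with
    | mem x hx =>
      obtain ⟨a, ha, b, hb, rfl⟩ := hx
      have h1 := Φ.mul (hF a ha) (ih b hb)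
      have h2 := Φ.mul (ih b hb) (hF a ha)
      rw [add_comm 1 (j + 1)] at h1
      exact Submodule.sub_mem _ h1 h2
    | zero => exact Submodule.zero_mem _
    | add x y _ _ hx hy => exact Submodule.add_mem _ hx hy
    | smul c x _ hx => exact hΦ _ c x hx

theorem br_add_left (x y b : A) : (x + y) * b - b * (x + y) = (x * b - b * x) + (y * b - b * y) := by
  rw [add_mul, mul_add]; abel

theorem br_add_right (x y b : A) : b * (x + y) - (x + y) * b = (b * x - x * b) + (b * y - y * b) := by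
  rw [add_mul, mul_add]; abel

theorem br_smul_left (c : ℝ) (x b : A) : (c • x) * b - b * (c • x) = c • (x * b - b * x) := by
  rw [smul_mul_assoc, mul_smul_comm, smul_sub]

theorem br_smul_right (c : ℝ) (x b : A) : b * (c • x) - (c • x) * b = c • (b * x - x * b) := by
  rw [smul_mul_assoc, mul_smul_comm, smul_sub]

theorem jacobi {h : Submodule ℝ A} (hbr : ∀ a ∈ h, ∀ b ∈ h, a * b - b * a ∈ h) {j : ℕ} {x y : A}
    (hx : x ∈ lcs h 1) (hy : y ∈ lcs h j) : x * y - y * x ∈ lcs h (j + 2) := by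
  rw [lcs_succ] at hx
  induction hx using Submodule.span_induction with
  | mem x hx =>
    obtain ⟨a, ha, b, hb, rfl⟩ := hx
    have hb' : b ∈ h := hb
    have h1 : a * (b * y - y * b) - (b * y - y * b) * a ∈ lcs h (j + 2) := br_lcs ha (br_lcs hb' hy)
    have h2 : b * (a * y - y * a) - (a * y - y * a) * b ∈ lcs h (j + 2) := br_lcs hb' (br_lcs ha hy)
    have h3 := Submodule.sub_mem _ h1 h2
    convert h3 using 1
    noncomm_ring
  | zero => simp
  | add x z _ _ h1 h2 =>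
    rw [br_add_left]
    exact Submodule.add_mem _ h1 h2
  | smul c x _ h1 =>
    rw [br_smul_left]
    exact Submodule.smul_mem _ _ h1

theorem lieLat (Φ : Filt A N) {h : Submodule ℝ A} (hF : ∀ x ∈ h, x ∈ Φ.F 1)
    (hbr : ∀ a ∈ h, ∀ b ∈ h, a * b - b * a ∈ h) : LieLat Φ h.toAddSubgroup where
  le := fun x hx => hF x hx
  br := fun u hu v hv => rat_smul_mem h _ (hbr u hu v hv)

theorem lieIdl {h : Submodule ℝ A} (hbr : ∀ a ∈ h, ∀ b ∈ h, a * b - b * a ∈ h) (j : ℕ) :
    LieIdl N h.toAddSubgroup (lcs h j).toAddSubgroup where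
  le := fun x hx => lcs_le_zero hbr j hx
  br := fun u hu v hv => rat_smul_mem (lcs h j) _ (lcs_le hbr j (br_lcs hu hv))

theorem adr_iter {h : Submodule ℝ A} {j : ℕ} {a y : A} (ha : a ∈ h) (hy : y ∈ lcs h j) (k : ℕ) :
    (adr (-a))^[k] y ∈ lcs h (j + k) := by
  induction k with
  | zero => exact hy
  | succ k ih =>
    rw [Function.iterate_succ_apply']
    have h1 : adr (-a) ((adr (-a))^[k] y) = a * ((adr (-a))^[k] y) - ((adr (-a))^[k] y) * a := by
      unfold adr
      noncomm_ring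
    rw [h1]
    exact br_lcs ha ih

/-- the hypotheses on the logarithms -/
structure LogS (Φ : Filt A N) (h : Submodule ℝ A) (L : Set A) : Prop where
  F : ∀ x ∈ h, x ∈ Φ.F 1
  br : ∀ a ∈ h, ∀ b ∈ h, a * b - b * a ∈ h
  sub : ∀ x ∈ L, x ∈ h
  zero : (0 : A) ∈ L
  neg : ∀ x ∈ L, -x ∈ L
  mul : ∀ x ∈ L, ∀ y ∈ L, ∃ z ∈ L, IsNilpotent.exp x * IsNilpotent.exp y = IsNilpotent.exp z

/-- the main step -/
theorem main_step {Φ : Filt A N} {h : Submodule ℝ A} {L : Set A} (H : LogS Φ h L) {j : ℕ} {a y : A}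
    (ha : a ∈ L) (hy : y ∈ L) (hyj : y ∈ lcs h j) :
    a * y - y * a ∈ Submodule.span ℝ {x | x ∈ L ∧ x ∈ lcs h (j + 1)} ⊔ lcs h (j + 2) := by
  have hT := lieLat Φ H.F H.br
  have hah := H.sub a ha
  have hyh := H.sub y hy
  set y' := ∑ k ∈ range (N + 1), ((k.factorial : ℚ))⁻¹ • (adr (-a))^[k] y with hy'
  have e1 : IsNilpotent.exp a * IsNilpotent.exp y * IsNilpotent.exp (-a) = IsNilpotent.exp y' :=
    hT.exp_conj_eq hah hyh
  have e2 : y' = (∑ k ∈ range (N + 1), (((k + 2).factorial : ℚ))⁻¹ • (adr (-a))^[k + 2] y) +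
      (a * y - y * a) + y := by
    have h1 : y' = ∑ k ∈ range (N + 1 + 2), ((k.factorial : ℚ))⁻¹ • (adr (-a))^[k] y := by
      rw [sum_range_succ, sum_range_succ]
      have h2 : ∀ k, N ≤ k → (adr (-a))^[k] y = 0 := by
        intro k hk
        exact Φ.eq_zero_of_le (k := 1 + k) (by omega)
          (Φ.adr_iter_mem (Submodule.neg_mem _ (H.F a hah)) (H.F y hyh) k)
      rw [h2 (N + 1) (by omega), h2 (N + 1 + 1) (by omega), smul_zero, smul_zero, add_zero, add_zero]
    rw [h1, sum_range_succ', sum_range_succ']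
    congr 1
    · congr 1
      simp only [zero_add, Nat.factorial_one, Nat.cast_one, inv_one, one_smul,
        Function.iterate_one]
      unfold adr
      noncomm_ring
    · simp
  have hr : (∑ k ∈ range (N + 1), (((k + 2).factorial : ℚ))⁻¹ • (adr (-a))^[k + 2] y) ∈
      lcs h (j + 2) := by
    refine Submodule.sum_mem _ fun k _ => rat_smul_mem _ _ ?_
    exact lcs_anti H.br (by omega) (adr_iter hah hyj (k + 2))
  set r := ∑ k ∈ range (N + 1), (((k + 2).factorial : ℚ))⁻¹ • (adr (-a))^[k + 2] y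
  have hb : a * y - y * a ∈ lcs h (j + 1) := br_lcs hah hyj
  have hd : y' - y ∈ lcs h (j + 1) := by
    rw [e2, add_sub_cancel_right]
    exact Submodule.add_mem _ (lcs_le H.br _ hr) hb
  have hy'h : y' ∈ h := by
    have := Submodule.add_mem _ (lcs_le_zero H.br _ hd) hyh
    rwa [sub_add_cancel] at this
  obtain ⟨j', hj', e3⟩ := hT.exp_mul_add (lieIdl H.br (j + 2)) (x := y') (y := -y) hy'h
    (h.neg_mem hyh) (by
      have h1 : y' * -y - -y * y' = y * (y' - y) - (y' - y) * y := by noncomm_ring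
      rw [h1]
      exact rat_smul_mem _ _ (br_lcs hyh hd))
  obtain ⟨z1, hz1, f1⟩ := H.mul a ha y hy
  obtain ⟨z2, hz2, f2⟩ := H.mul z1 hz1 (-a) (H.neg a ha)
  obtain ⟨z3, hz3, f3⟩ := H.mul z2 hz2 (-y) (H.neg y hy)
  have e4 : z3 = y' + -y + j' := by
    have h1 : y' + -y + j' ∈ h :=
      Submodule.add_mem _ (Submodule.add_mem _ hy'h (h.neg_mem hyh)) (lcs_le_zero H.br _ hj')
    refine Φ.exp_inj (H.F _ (H.sub _ hz3)) (H.F _ h1) ?_
    rw [← f3, ← f2, ← f1, e1, e3]
  have e5 : a * y - y * a = z3 - (r + j') := by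
    rw [e4, e2]; abel
  have hz3j : z3 ∈ lcs h (j + 1) := by
    have h1 : z3 = (a * y - y * a) + (r + j') := by rw [e5]; abel
    rw [h1]
    exact Submodule.add_mem _ hb (lcs_le H.br _ (Submodule.add_mem _ hr hj'))
  rw [e5]
  exact Submodule.sub_mem _ (Submodule.mem_sup_left (Submodule.subset_span ⟨hz3, hz3j⟩))
    (Submodule.mem_sup_right (Submodule.add_mem _ hr hj'))

/-- Claim 1 -/
theorem claim1 {Φ : Filt A N} {h : Submodule ℝ A} {L s : Set A} (H : LogS Φ h L) (hs : h = lieSp s)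
    (hsL : s ⊆ L) (j : ℕ) :
    lcs h j ≤ Submodule.span ℝ {x | x ∈ L ∧ x ∈ lcs h j} ⊔ lcs h (j + 1) := by
  have h0 : h ≤ Submodule.span ℝ s ⊔ lcs h 1 := by
    have hle : Submodule.span ℝ s ⊔ lcs h 1 ≤ h := by
      refine sup_le ?_ (lcs_le H.br 0)
      rw [Submodule.span_le]
      exact fun x hx => H.sub x (hsL hx)
    conv_lhs => rw [hs]
    refine lieSp_le (fun x hx => Submodule.mem_sup_left (Submodule.subset_span hx)) ?_
    intro x hx y hy
    exact Submodule.mem_sup_right (br_lcs (j := 0) (hle hx) (hle hy))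
  induction j with
  | zero =>
    refine h0.trans (sup_le_sup_right ?_ _)
    exact Submodule.span_mono fun x hx => ⟨hsL hx, H.sub x (hsL hx)⟩
  | succ j ih =>
    set W := Submodule.span ℝ {x | x ∈ L ∧ x ∈ lcs h (j + 1)} ⊔ lcs h (j + 1 + 1) with hW
    rw [lcs_succ, Submodule.span_le]
    rintro x ⟨a, ha, b, hb, rfl⟩
    show a * b - b * a ∈ W
    -- reduction of `b`
    obtain ⟨b1, hb1, b2, hb2, rfl⟩ := Submodule.mem_sup.1 (ih hb)
    rw [br_add_right]
    refine Submodule.add_mem _ ?_ (Submodule.mem_sup_right (br_lcs ha hb2))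
    clear hb
    induction hb1 using Submodule.span_induction with
    | mem b hb =>
      obtain ⟨a1, ha1, a2, ha2, rfl⟩ := Submodule.mem_sup.1 (h0 ha)
      rw [br_add_left]
      refine Submodule.add_mem _ ?_ (Submodule.mem_sup_right (jacobi H.br ha2 hb.2))
      clear ha
      induction ha1 using Submodule.span_induction with
      | mem a ha => exact main_step H (hsL ha) hb.1 hb.2
      | zero => simp
      | add x z _ _ h1 h2 =>
        rw [br_add_left]
        exact Submodule.add_mem _ h1 h2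
      | smul c x _ h1 =>
        rw [br_smul_left]
        exact Submodule.smul_mem _ _ h1
    | zero => simp
    | add x z _ _ h1 h2 =>
      rw [br_add_right]
      exact Submodule.add_mem _ h1 h2
    | smul c x _ h1 =>
      rw [br_smul_right]
      exact Submodule.smul_mem _ _ h1

theorem nsmul_L {Φ : Filt A N} {h : Submodule ℝ A} {L : Set A} (H : LogS Φ h L) {e : A}
    (he : e ∈ L) (k : ℕ) : (k : ℝ) • e ∈ L := by
  induction k with
  | zero => simpa using H.zero
  | succ k ih =>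
    obtain ⟨z, hz, h1⟩ := H.mul _ ih e he
    have hT := lieLat Φ H.F H.br
    have hcomm : Commute ((k : ℝ) • e) e := by
      unfold Commute SemiconjBy
      rw [smul_mul_assoc, mul_smul_comm]
    have h2 : IsNilpotent.exp ((k : ℝ) • e) * IsNilpotent.exp e =
        IsNilpotent.exp ((k : ℝ) • e + e) := by
      rw [IsNilpotent.exp_add_of_commute hcomm (Φ.nilp (H.F _ (h.smul_mem _ (H.sub e he))))
        (Φ.nilp (H.F _ (H.sub e he)))]
    have h3 : z = (k : ℝ) • e + e := by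
      refine Φ.exp_inj (H.F _ (H.sub _ hz))
        (H.F _ (h.add_mem (h.smul_mem _ (H.sub e he)) (H.sub e he))) ?_
      rw [← h1, h2]
    have h4 : ((k + 1 : ℕ) : ℝ) • e = z := by
      rw [h3]
      push_cast
      rw [add_smul, one_smul]
    rw [h4]
    exact hz

theorem zsmul_L {Φ : Filt A N} {h : Submodule ℝ A} {L : Set A} (H : LogS Φ h L) {e : A}
    (he : e ∈ L) (k : ℤ) : (k : ℝ) • e ∈ L := by
  obtain ⟨n, rfl | rfl⟩ := k.eq_nat_or_neg
  · simpa using nsmul_L H he n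
  · have := H.neg _ (nsmul_L H he n)
    rw [← neg_smul] at this
    simpa using this

/-- products modulo the next term -/
theorem exp_mul_mod {Φ : Filt A N} {h : Submodule ℝ A} {L : Set A} (H : LogS Φ h L) {j : ℕ}
    {x y : A} (hx : x ∈ lcs h j) (hy : y ∈ lcs h j) :
    ∃ r ∈ lcs h (j + 1), IsNilpotent.exp x * IsNilpotent.exp y = IsNilpotent.exp (x + y + r) :=
  (lieLat Φ H.F H.br).exp_mul_add (lieIdl H.br (j + 1)) (lcs_le_zero H.br _ hx)
    (lcs_le_zero H.br _ hy) (rat_smul_mem _ _ (br_lcs (lcs_le_zero H.br _ hx) hy))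

theorem int_part {Φ : Filt A N} {h : Submodule ℝ A} {L : Set A} (H : LogS Φ h L) {j : ℕ}
    (k : A → ℤ) (t : Finset A) (ht : ∀ e ∈ t, e ∈ L ∧ e ∈ lcs h j) :
    ∃ y ∈ L, y - ∑ e ∈ t, ((k e : ℤ) : ℝ) • e ∈ lcs h (j + 1) := by
  classical
  induction t using Finset.induction_on with
  | empty => exact ⟨0, H.zero, by simp⟩
  | insert e t he ih =>
    obtain ⟨y, hy, h1⟩ := ih fun e' he' => ht e' (mem_insert_of_mem he')
    obtain ⟨heL, hej⟩ := ht e (mem_insert_self _ _)
    have h2 := zsmul_L H heL (k e)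
    obtain ⟨z, hz, h3⟩ := H.mul _ h2 y hy
    have h4 : ∑ e ∈ t, ((k e : ℤ) : ℝ) • e ∈ lcs h j :=
      Submodule.sum_mem _ fun e' he' => Submodule.smul_mem _ _ (ht e' (mem_insert_of_mem he')).2
    have hyj : y ∈ lcs h j := by
      have := Submodule.add_mem _ (lcs_le H.br _ h1) h4
      rwa [sub_add_cancel] at this
    obtain ⟨r, hr, h5⟩ := exp_mul_mod H (Submodule.smul_mem (lcs h j) ((k e : ℤ) : ℝ) hej) hyj
    have h6 : z = ((k e : ℤ) : ℝ) • e + y + r := by
      refine Φ.exp_inj (H.F _ (H.sub _ hz)) (H.F _ ?_) ?_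
      · exact h.add_mem (h.add_mem (H.sub _ h2) (H.sub _ hy)) (lcs_le_zero H.br _ hr)
      · rw [← h3, h5]
    refine ⟨z, hz, ?_⟩
    rw [sum_insert he, h6]
    have h7 : ((k e : ℤ) : ℝ) • e + y + r - (((k e : ℤ) : ℝ) • e + ∑ e ∈ t, ((k e : ℤ) : ℝ) • e) =
        (y - ∑ e ∈ t, ((k e : ℤ) : ℝ) • e) + r := by abel
    rw [h7]
    exact Submodule.add_mem _ h1 hr

/-- Claim 2 -/
theorem claim2 [TopologicalSpace A] [ContinuousAdd A] [ContinuousSMul ℝ A] {Φ : Filt A N}
    (hΦ : ∀ (t : ℕ) (c : ℝ) (x : A), x ∈ Φ.F t → c • x ∈ Φ.F t) {h : Submodule ℝ A}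
    (hfd : FiniteDimensional ℝ h) {L s : Set A} (H : LogS Φ h L) (hs : h = lieSp s) (hsL : s ⊆ L)
    (i j : ℕ) (hij : N ≤ i + j) :
    ∃ (n : ℕ) (K : Set A), IsCompact K ∧ (∀ x ∈ K, x ∈ h) ∧ ∀ x ∈ lcs h j,
      ∃ (c : Fin n → A) (y : A), (∀ i, c i ∈ K) ∧ y ∈ L ∧
        IsNilpotent.exp x = (List.ofFn fun i => IsNilpotent.exp (c i)).prod * IsNilpotent.exp y := by
  classical
  induction i generalizing j with
  | zero =>
    refine ⟨0, ∅, isCompact_empty, fun x hx => absurd hx (Set.notMem_empty x), fun x hx => ?_⟩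
    refine ⟨fun i => i.elim0, 0, fun i => i.elim0, H.zero, ?_⟩
    have h1 : x = 0 := Φ.eq_zero_of_le (k := j + 1) (by omega) (lcs_F Φ hΦ H.F j x hx)
    rw [h1]
    simp
  | succ i ih =>
    obtain ⟨n, K, hK, hKh, hK2⟩ := ih (j + 1) (by omega)
    -- a finite spanning set
    have hfg : (Submodule.span ℝ {x | x ∈ L ∧ x ∈ lcs h j}).FG := by
      have hle : Submodule.span ℝ {x | x ∈ L ∧ x ∈ lcs h j} ≤ h := by
        rw [Submodule.span_le]
        exact fun x hx => H.sub x hx.1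
      have : FiniteDimensional ℝ (Submodule.span ℝ {x | x ∈ L ∧ x ∈ lcs h j}) :=
        Submodule.finiteDimensional_of_le hle
      exact (Submodule.fg_iff_finiteDimensional _).2 this
    obtain ⟨t, ht, htsp⟩ := (Submodule.fg_span_iff_fg_span_finset_subset _).1 hfg
    have ht' : ∀ e ∈ t, e ∈ L ∧ e ∈ lcs h j := fun e he => ht he
    let φ : (t → ℝ) → A := fun f => ∑ e : t, f e • (e : A)
    have hφ : Continuous φ := by
      refine continuous_finsetSum _ fun e _ => ?_
      exact (continuous_apply e).smul continuous_const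
    set K0 : Set A := φ '' (Set.univ.pi fun _ => Set.Icc (0 : ℝ) 1) with hK0
    have hK0c : IsCompact K0 := (isCompact_univ_pi fun _ => isCompact_Icc).image hφ
    have hφj : ∀ f, φ f ∈ lcs h j := fun f =>
      Submodule.sum_mem _ fun e _ => Submodule.smul_mem _ _ (ht' e e.2).2
    refine ⟨n + 1, K ∪ K0, hK.union hK0c, ?_, fun x hx => ?_⟩
    · rintro x (hx | ⟨f, _, rfl⟩)
      · exact hKh x hx
      · exact lcs_le_zero H.br _ (hφj f)
    have h1 := claim1 H hs hsL j hx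
    rw [htsp] at h1
    obtain ⟨x1, hx1, x', hx', rfl⟩ := Submodule.mem_sup.1 h1
    obtain ⟨f, -, hf⟩ := Submodule.mem_span_finset.1 hx1
    obtain ⟨y1, hy1, hy1j⟩ := int_part H (fun e => ⌊f e⌋) t ht'
    set c0 : A := φ fun e => Int.fract (f e) with hc0
    have hc0K : c0 ∈ K0 :=
      ⟨_, fun e _ => ⟨Int.fract_nonneg _, (Int.fract_lt_one _).le⟩, rfl⟩
    have hc0j : c0 ∈ lcs h j := hφj _
    have hc0s : c0 = ∑ e ∈ t, Int.fract (f e) • e := by
      rw [hc0]
      show ∑ e : t, Int.fract (f e) • (e : A) = _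
      exact Finset.sum_coe_sort t (fun e => Int.fract (f e) • e)
    have hsum : c0 + ∑ e ∈ t, ((⌊f e⌋ : ℤ) : ℝ) • e = x1 := by
      rw [hc0s, ← hf, ← sum_add_distrib]
      refine sum_congr rfl fun e _ => ?_
      rw [← add_smul, add_comm, Int.floor_add_fract]
    have hxj : x1 + x' ∈ lcs h j := hx
    have hy1' : y1 ∈ lcs h j := by
      have h4 : ∑ e ∈ t, ((⌊f e⌋ : ℤ) : ℝ) • e ∈ lcs h j :=
        Submodule.sum_mem _ fun e' he' => Submodule.smul_mem _ _ (ht' e' he').2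
      have := Submodule.add_mem _ (lcs_le H.br _ hy1j) h4
      rwa [sub_add_cancel] at this
    obtain ⟨r2, hr2, e2⟩ := exp_mul_mod H (Submodule.neg_mem _ hc0j) hxj
    have hm : -c0 + (x1 + x') + r2 ∈ lcs h j :=
      Submodule.add_mem _ (Submodule.add_mem _ (Submodule.neg_mem _ hc0j) hxj) (lcs_le H.br _ hr2)
    obtain ⟨r3, hr3, e3⟩ := exp_mul_mod H hm (Submodule.neg_mem _ hy1')
    set x'' := -c0 + (x1 + x') + r2 + -y1 + r3 with hx''
    have hx''j : x'' ∈ lcs h (j + 1) := by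
      have h5 : x'' = x' - (y1 - ∑ e ∈ t, ((⌊f e⌋ : ℤ) : ℝ) • e) + r2 + r3 := by
        rw [hx'', ← hsum]; abel
      rw [h5]
      exact Submodule.add_mem _ (Submodule.add_mem _ (Submodule.sub_mem _ hx' hy1j) hr2) hr3
    obtain ⟨c, y, hc, hy, e4⟩ := hK2 x'' hx''j
    obtain ⟨z, hz, e5⟩ := H.mul y hy y1 hy1
    refine ⟨Fin.cons c0 c, z, ?_, hz, ?_⟩
    · intro i
      refine Fin.cases ?_ (fun i => ?_) i
      · rw [Fin.cons_zero]; exact Or.inr hc0K
      · rw [Fin.cons_succ]; exact Or.inl (hc i)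
    · rw [List.ofFn_succ, List.prod_cons]
      simp only [Fin.cons_zero, Fin.cons_succ]
      rw [← e5, mul_assoc, ← mul_assoc _ (IsNilpotent.exp y), ← e4, hx'', ← e3, ← e2]
      have n0 := Φ.nilp (H.F _ (lcs_le_zero H.br _ hc0j))
      have n1 := Φ.nilp (H.F _ (H.sub _ hy1))
      calc IsNilpotent.exp (x1 + x') = (IsNilpotent.exp c0 * IsNilpotent.exp (-c0)) *
            IsNilpotent.exp (x1 + x') * (IsNilpotent.exp (-y1) * IsNilpotent.exp y1) := by
            rw [IsNilpotent.exp_mul_exp_neg_self n0, IsNilpotent.exp_neg_mul_exp_self n1, one_mul,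
              mul_one]
        _ = _ := by simp only [mul_assoc]

end gen

theorem t_CL : S_CL := by
  intro N d M h hfd hF s L hs hsL hLh h0 hneg hmul
  have hbr : ∀ a ∈ h, ∀ b ∈ h, a * b - b * a ∈ h := by
    rw [hs]
    exact fun a ha b hb => lieSp_br s ha hb
  have H : LogS (wtF N d M) h L := ⟨hF, hbr, hLh, h0, hneg, hmul⟩
  exact claim2 (Φ := wtF N d M) (fun t c x hx => (wtS N d M t).smul_mem c hx) hfd H hs hsL
    (M * N + 1) 0 (by omega)

end Run7.h638.NL
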