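import Pool.Agent.Run7.h664.NL.Iface

/-!
# Project NL, leaf GP2: the eigenfunction is an eigenfunction of the whole group
-/

set_option autoImplicit false

namespace Run7.h638.NL

open Filter Topology Pool.Agent.V11106 Run7.h664.NL
open scoped commutatorElement

/-- powers of a unit number which stay near a fixed direction -/
theorem circ_one (w δ : Circle) (h : ∀ n : ℕ, ‖((w ^ n * δ : Circle) : ℂ) - 1‖ < 1) : w = 1 := by
  by_contra hw
  have hw' : (w : ℂ) - 1 ≠ 0 := by
    intro h0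
    apply hw
    apply Circle.ext
    rw [Circle.coe_one]
    exact sub_eq_zero.1 h0
  have hre : ∀ n : ℕ, (1 / 2 : ℝ) ≤ ((w ^ n * δ : Circle) : ℂ).re := by
    intro n
    set z : ℂ := ((w ^ n * δ : Circle) : ℂ) with hz
    have h1 : ‖z‖ = 1 := Circle.norm_coe _
    have h2 := h n
    have h3 : Complex.normSq z = 1 := by
      rw [Complex.normSq_eq_norm_sq, h1]; norm_num
    have h4 : Complex.normSq (z - 1) < 1 := by
      rw [Complex.normSq_eq_norm_sq]
      have := norm_nonneg (z - 1)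
      nlinarith
    rw [Complex.normSq_apply] at h3 h4
    simp only [Complex.sub_re, Complex.one_re, Complex.sub_im, Complex.one_im, sub_zero] at h4
    nlinarith
  have hsum : ∀ n : ℕ, (n : ℝ) / 2 ≤ 2 / ‖(w : ℂ) - 1‖ := by
    intro n
    have h1 : ∑ i ∈ Finset.range n, ((w ^ i * δ : Circle) : ℂ) =
        (((w : ℂ) ^ n - 1) / ((w : ℂ) - 1)) * (δ : ℂ) := by
      rw [← geom_sum_eq (fun h0 => hw' (by rw [h0, sub_self])), Finset.sum_mul]
      refine Finset.sum_congr rfl fun i _ => ?_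
      rw [Circle.coe_mul, Circle.coe_pow]
    have h2 : (n : ℝ) / 2 ≤ (∑ i ∈ Finset.range n, ((w ^ i * δ : Circle) : ℂ)).re := by
      rw [Complex.re_sum]
      calc (n : ℝ) / 2 = ∑ i ∈ Finset.range n, (1 / 2 : ℝ) := by
            rw [Finset.sum_const, Finset.card_range, nsmul_eq_mul]; ring
        _ ≤ _ := Finset.sum_le_sum fun i _ => hre i
    refine h2.trans ((Complex.re_le_norm _).trans ?_)
    rw [h1, norm_mul, Circle.norm_coe, mul_one, norm_div]
    refine div_le_div_of_nonneg_right ?_ (norm_nonneg _)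
    refine (norm_sub_le _ _).trans ?_
    rw [norm_pow, Circle.norm_coe, norm_one]
    norm_num
  obtain ⟨n, hn⟩ := exists_nat_gt (2 * (2 / ‖(w : ℂ) - 1‖))
  have := hsum n
  linarith

section

variable {G : Type} [Group G] [TopologicalSpace G] [IsTopologicalGroup G]

omit [TopologicalSpace G] [IsTopologicalGroup G] in
/-- the eigenvalue -/
noncomputable def et (f : G → Circle) (v : G) : Circle := f v * (f 1)⁻¹

omit [TopologicalSpace G] [IsTopologicalGroup G] in
theorem et_of {f : G → Circle} {v : G} {c : Circle} (h : ∀ g, f (v * g) = c * f g) : et f v = c := by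
  unfold et
  have := h 1
  rw [mul_one] at this
  rw [this, mul_inv_cancel_right]

/-- the eigenvectors -/
def Vs (f : G → Circle) : Subgroup G where
  carrier := {v | ∀ g, f (v * g) = et f v * f g}
  mul_mem' := by
    intro v w hv hw g
    have h1 : ∀ g, f (v * w * g) = et f v * et f w * f g := by
      intro g
      rw [mul_assoc, hv, hw, mul_assoc]
    rw [h1, et_of h1]
  one_mem' := by
    intro g
    have h1 : ∀ g, f (1 * g) = 1 * f g := by
      intro g; rw [one_mul, one_mul]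
    rw [h1, et_of h1]
  inv_mem' := by
    intro v hv g
    have h1 : ∀ g, f (v⁻¹ * g) = (et f v)⁻¹ * f g := by
      intro g
      have := hv (v⁻¹ * g)
      rw [mul_inv_cancel_left] at this
      rw [this, inv_mul_cancel_left]
    rw [h1, et_of h1]

/-- the stabilizer -/
def Ts (f : G → Circle) : Subgroup G where
  carrier := {v | ∀ g, f (v * g) = f g}
  mul_mem' := by
    intro v w hv hw g
    rw [mul_assoc, hv, hw]
  one_mem' := by
    intro g
    rw [one_mul]
  inv_mem' := by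
    intro v hv g
    have := hv (v⁻¹ * g)
    rw [mul_inv_cancel_left] at this
    exact this.symm

theorem mem_Vs {f : G → Circle} {v : G} : v ∈ Vs f ↔ ∀ g, f (v * g) = et f v * f g := Iff.rfl

theorem mem_Ts {f : G → Circle} {v : G} : v ∈ Ts f ↔ ∀ g, f (v * g) = f g := Iff.rfl

theorem mem_Vs_of {f : G → Circle} {v : G} {c : Circle} (h : ∀ g, f (v * g) = c * f g) :
    v ∈ Vs f := by
  rw [mem_Vs]
  intro g
  rw [h, et_of h]

theorem Ts_of_Vs {f : G → Circle} {v : G} (h : v ∈ Vs f) (h1 : et f v = 1) : v ∈ Ts f := by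
  rw [mem_Ts]
  intro g
  rw [mem_Vs.1 h, h1, one_mul]

/-- the small elements -/
theorem small {Λ : Subgroup G} {K : Set G} (hK : IsCompact K)
    (hKΛ : ∀ g : G, ∃ a ∈ K, ∃ l ∈ Λ, g = a * l) {f : G → Circle} (hf : Continuous f)
    (hr : ∀ g, ∀ l ∈ Λ, f (g * l) = f g) :
    ∀ᶠ v in 𝓝 (1 : G), ∀ g, ‖((f (v * g) * (f g)⁻¹ : Circle) : ℂ) - 1‖ < 1 := by
  have h1 : ∀ᶠ v in 𝓝 (1 : G), ∀ a ∈ K, ‖((f (v * a) * (f a)⁻¹ : Circle) : ℂ) - 1‖ < 1 := by
    refine hK.eventually_forall_of_forall_eventually fun a _ => ?_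
    have hc : Continuous fun p : G × G => ‖((f (p.1 * p.2) * (f p.2)⁻¹ : Circle) : ℂ) - 1‖ := by
      refine (Continuous.sub ?_ continuous_const).norm
      exact continuous_subtype_val.comp ((hf.comp (continuous_fst.mul continuous_snd)).mul (hf.comp continuous_snd).inv)
    have h2 := hc.tendsto ((1 : G), a)
    simp only [one_mul, mul_inv_cancel, Circle.coe_one, sub_self, norm_zero] at h2
    exact h2.eventually (gt_mem_nhds one_pos)
  filter_upwards [h1] with v hv g
  obtain ⟨a, ha, l, hl, rfl⟩ := hKΛ g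
  rw [← mul_assoc, hr _ l hl, hr _ l hl]
  exact hv a ha

theorem step {Λ : Subgroup G} {K : Set G} (hK : IsCompact K)
    (hKΛ : ∀ g : G, ∃ a ∈ K, ∃ l ∈ Λ, g = a * l) {z₁ z₂ : G}
    (hgen : Subgroup.closure ({z₁, z₂} ∪ {c : G | Rooted c}) = ⊤) {r : ℕ}
    (hmin : ∀ M : Set G, M.Nonempty → Inv z₁ z₂ (PP Λ r) M → M = Set.univ)
    {f χ : G → Circle} (hf : Continuous f) (hz1 : ∀ g, f (z₁ * g) = f g)
    (hz2 : ∀ g, f (z₂ * g) = f g) (hq : ∀ g, ∀ q ∈ PP Λ (r + 1), f (g * q) = f g)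
    (hp : ∀ g, ∀ p ∈ PP Λ r, f (g * p) = χ p * f g) {m : ℕ}
    (hQR : ∀ u ∈ LC G m, QR z₁ m u ∧ QR z₂ m u)
    (hV : LC G (m + 1) ≤ Vs f) (hT : ∀ l ∈ LC G (m + 1), ∀ g : G, ⁅g, l⁆ ∈ Ts f) :
    LC G m ≤ Vs f ∧ ∀ l ∈ LC G m, ∀ g : G, ⁅g, l⁆ ∈ Ts f := by
  have hLT : LC G (m + 2) ≤ Ts f := by
    rw [LC_succ, Subgroup.commutator_le]
    intro p hp g _
    rw [← commutatorElement_inv]
    exact inv_mem (hT p hp g)
  have hΛ : ∀ g, ∀ l ∈ Λ, f (g * l) = f g := fun g l hl =>
    hq g l (Subgroup.le_topologicalClosure _ (Subgroup.mem_sup_right hl))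
  have hsm := small hK hKΛ hf hΛ
  have hzT : ∀ z, (∀ g, f (z * g) = f g) → ∀ n : ℕ, ∀ g, f (z ^ n * g) = f g := by
    intro z hz n
    exact (pow_mem (mem_Ts.2 hz : z ∈ Ts f) n : z ^ n ∈ Ts f)
  -- step (b)
  have hb : ∀ z, (∀ g, f (z * g) = f g) → ∀ v ∈ LC G m,
      (∀ g, ‖((f (v * g) * (f g)⁻¹ : Circle) : ℂ) - 1‖ < 1) → ⁅z, v⁆ ∈ Ts f := by
    intro z hz v hv hv2
    have hc : ⁅v, z⁆ ∈ Vs f := hV (comm_mem' hv z)
    have hD : ∀ n : ℕ, f (v * z ^ n) * (f (z ^ n))⁻¹ = (et f ⁅v, z⁆) ^ n * (f v * (f 1)⁻¹) := by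
      intro n
      have h0 := hzT z hz n 1
      rw [mul_one] at h0
      rw [h0, ← mul_assoc]
      congr 1
      clear h0
      have key : ∀ n : ℕ, ∀ g, f (v * (z ^ n * g)) = (et f ⁅v, z⁆) ^ n * f (v * g) := by
        intro n
        induction n with
        | zero => intro g; rw [pow_zero, pow_zero, one_mul, one_mul]
        | succ n ih =>
          intro g
          rw [pow_succ, mul_assoc, ih]
          have h1 : v * (z * g) = ⁅v, z⁆ * (z * (v * g)) := by
            simp only [commutatorElement_def]; group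
          rw [h1, mem_Vs.1 hc, hz, ← mul_assoc, ← pow_succ]
      have := key n 1
      rwa [mul_one, mul_one] at this
    have h1 : et f ⁅v, z⁆ = 1 := by
      refine circ_one _ (f v * (f 1)⁻¹) fun n => ?_
      rw [← hD n]
      exact hv2 _
    rw [← commutatorElement_inv]
    exact inv_mem (Ts_of_Vs hc h1)
  -- step (c)
  have hc : ∀ z, (∀ g, f (z * g) = f g) → ∀ v ∈ LC G m, QR z m v → ⁅z, v⁆ ∈ Ts f := by
    intro z hz v hv hqr
    obtain ⟨u, hu, hu1, hu2⟩ := hqr
    obtain ⟨n, h1, h2⟩ := ((hu1.eventually hsm).and hu2).exists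
    have h3 := hb z hz (u n) (hu n) h1
    rw [← map_pow] at h2
    have h4 := hLT (q_eq.1 h2)
    have h5 := mul_mem (inv_mem h4) (pow_mem h3 n)
    rwa [mul_inv_rev, inv_inv, inv_mul_cancel_right] at h5
  -- step (d)
  have hd : LC G m ≤ Vs f := by
    intro v hv
    have hv1 := hc z₁ hz1 v hv (hQR v hv).1
    have hv2 := hc z₂ hz2 v hv (hQR v hv).2
    have hzz : ∀ z, (∀ g, f (z * g) = f g) → ⁅z, v⁆ ∈ Ts f → ∀ g, f (v * (z * g)) = f (v * g) := by
      intro z hz hzv g
      have h1 : v * (z * g) = ⁅z, v⁆⁻¹ * (z * (v * g)) := by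
        simp only [commutatorElement_def]; group
      rw [h1, mem_Ts.1 (inv_mem hzv), hz]
    set M : Set G := {g | f (v * g) * (f g)⁻¹ = f v * (f 1)⁻¹} with hM
    have hMi : ∀ z, (∀ g, f (z * g) = f g) → ⁅z, v⁆ ∈ Ts f → ∀ g ∈ M, z * g ∈ M ∧ z⁻¹ * g ∈ M := by
      intro z hz hzv g hg
      rw [hM, Set.mem_ofPred_eq] at hg
      constructor
      · rw [hM, Set.mem_ofPred_eq, hzz z hz hzv, hz]
        exact hg
      · rw [hM, Set.mem_ofPred_eq]
        have h1 := hzz z hz hzv (z⁻¹ * g)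
        have h2 := hz (z⁻¹ * g)
        rw [mul_inv_cancel_left] at h1 h2
        rw [← h1, ← h2]
        exact hg
    have hMu : M = Set.univ := by
      refine hmin M ⟨1, by rw [hM, Set.mem_ofPred_eq, mul_one]⟩ ⟨?_, ?_, ?_, ?_⟩
      · refine isClosed_eq ?_ continuous_const
        exact (hf.comp (continuous_const.mul continuous_id)).mul hf.inv
      · intro g hg p hpp
        rw [hM, Set.mem_ofPred_eq] at hg ⊢
        rw [← mul_assoc, hp _ p hpp, hp _ p hpp, ← hg, mul_inv_rev]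
        rw [mul_comm (χ p), mul_assoc, mul_comm (f g)⁻¹, mul_inv_cancel_left]
      · exact hMi z₁ hz1 hv1
      · exact hMi z₂ hz2 hv2
    refine mem_Vs_of (c := f v * (f 1)⁻¹) fun g => ?_
    have h1 : g ∈ M := by rw [hMu]; exact Set.mem_univ g
    rw [hM, Set.mem_ofPred_eq] at h1
    rw [← h1, inv_mul_cancel_right]
  refine ⟨hd, fun v hv g => ?_⟩
  -- step (e)
  have he : ∀ ρ, (∀ g, ‖((f (ρ * g) * (f g)⁻¹ : Circle) : ℂ) - 1‖ < 1) → ⁅ρ, v⁆ ∈ Ts f := by
    intro ρ hρ
    have hcV : ⁅ρ, v⁆ ∈ Vs f := hV (comm_mem hv ρ)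
    have hvV : v ∈ Vs f := hd hv
    have hD : ∀ n : ℕ, f (ρ * v ^ n) * (f (v ^ n))⁻¹ = (et f ⁅ρ, v⁆) ^ n * (f ρ * (f 1)⁻¹) := by
      have key : ∀ n : ℕ, ∀ g, f (ρ * (v ^ n * g)) * (f (v ^ n * g))⁻¹ =
          (et f ⁅ρ, v⁆) ^ n * (f (ρ * g) * (f g)⁻¹) := by
        intro n
        induction n with
        | zero => intro g; rw [pow_zero, pow_zero, one_mul, one_mul]
        | succ n ih =>
          intro g
          rw [pow_succ, mul_assoc, ih]
          have h1 : ρ * (v * g) = ⁅ρ, v⁆ * (v * (ρ * g)) := by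
            simp only [commutatorElement_def]; group
          rw [h1, mem_Vs.1 hcV, mem_Vs.1 hvV, mem_Vs.1 hvV g, pow_succ]
          generalize et f ⁅ρ, v⁆ = a
          generalize et f v = b
          generalize f (ρ * g) = c
          generalize f g = e
          rw [mul_inv_rev]
          calc a ^ n * (a * (b * c) * (e⁻¹ * b⁻¹)) = a ^ n * a * (c * e⁻¹) * (b * b⁻¹) := by
                simp only [mul_assoc, mul_comm, mul_left_comm]
            _ = a ^ n * a * (c * e⁻¹) := by rw [mul_inv_cancel, mul_one]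
      intro n
      have := key n 1
      rwa [mul_one, mul_one] at this
    have h1 : et f ⁅ρ, v⁆ = 1 := by
      refine circ_one _ (f ρ * (f 1)⁻¹) fun n => ?_
      rw [← hD n]
      exact hρ _
    exact Ts_of_Vs hcV h1
  have hqT : ∀ {a b : G}, q (m + 2) a = q (m + 2) b → b ∈ Ts f → a ∈ Ts f := by
    intro a b hab hb
    have h1 := mul_mem (hLT (q_eq.1 hab)) hb
    rwa [inv_mul_cancel_right] at h1
  have hg : g ∈ Subgroup.closure ({z₁, z₂} ∪ {c : G | Rooted c}) := by
    rw [hgen]; exact Subgroup.mem_top g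
  induction hg using Subgroup.closure_induction with
  | mem x hx =>
    rcases hx with hx | hx
    · rcases hx with rfl | hx
      · exact hc x hz1 v hv (hQR v hv).1
      · rw [Set.mem_singleton_iff] at hx
        subst hx
        exact hc x hz2 v hv (hQR v hv).2
    · obtain ⟨u, hu, hu2⟩ := hx
      obtain ⟨n, h1, h2⟩ := ((hu.eventually hsm).and hu2).exists
      have h3 := he (u n) h1
      refine hqT (b := ⁅u n, v⁆ ^ n) ?_ (pow_mem h3 n)
      rw [← h2, q_comm_pow_left hv, map_pow]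
  | one =>
    have : ⁅(1 : G), v⁆ = 1 := by simp [commutatorElement_def]
    rw [this]
    exact one_mem _
  | mul x y _ _ hx hy =>
    refine hqT (b := ⁅x, v⁆ * ⁅y, v⁆) ?_ (mul_mem hx hy)
    rw [q_comm_mul_left hv, map_mul]
  | inv x _ hx =>
    refine hqT (b := ⁅x, v⁆⁻¹) ?_ (inv_mem hx)
    rw [q_comm_inv_left hv, map_inv]

end

theorem t_GP2 : S_GP2 := by
  intro hQR2 G _ _ _ _ Λ K hK hKΛ z₁ z₂ hcomm hgen r hmin f χ hf hz1 hz2 hq hp
  have hLCP : ∀ {t : ℕ} {l : G}, l ∈ LC G t → l ∈ PP Λ t := fun hl =>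
    Subgroup.le_topologicalClosure _ (Subgroup.mem_sup_left hl)
  have hQR := hQR2 G z₁ z₂ hcomm hgen
  have main : ∀ j m : ℕ, m + j = r → LC G m ≤ Vs f ∧ ∀ l ∈ LC G m, ∀ g : G, ⁅g, l⁆ ∈ Ts f := by
    intro j
    induction j with
    | zero =>
      intro m hm
      rw [add_zero] at hm
      subst hm
      constructor
      · intro l hl
        refine mem_Vs_of (c := χ l) fun g => ?_
        have h1 : l * g = g * l * ⁅l⁻¹, g⁻¹⁆ := by
          simp only [commutatorElement_def]; group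
        rw [h1, hq _ _ (hLCP (comm_mem' (inv_mem hl) g⁻¹)), hp _ _ (hLCP hl)]
      · intro l hl g x
        have h1 : ⁅g, l⁆ * x = x * (x⁻¹ * ⁅g, l⁆ * x⁻¹⁻¹) := by group
        rw [h1, hq]
        exact hLCP (Subgroup.Normal.conj_mem inferInstance _ (comm_mem hl g) x⁻¹)
    | succ j ih =>
      intro m hm
      obtain ⟨h1, h2⟩ := ih (m + 1) (by omega)
      exact step hK hKΛ hgen hmin hf hz1 hz2 hq hp (hQR m) h1 h2
  have hV : ∀ v g, f (v * g) = et f v * f g := fun v g =>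
    mem_Vs.1 ((main r 0 (by omega)).1 (by rw [LC_zero]; exact Subgroup.mem_top v)) g
  refine ⟨⟨⟨fun v => et f v, ?_⟩, ?_⟩, ?_, fun v g => hV v g⟩
  · unfold et; rw [mul_inv_cancel]
  · intro v w
    show et f (v * w) = et f v * et f w
    have h1 : f (v * w) = et f v * f w := hV v w
    unfold et at h1 ⊢
    rw [h1, mul_assoc]
  · exact hf.mul continuous_const

end Run7.h638.NL
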